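import Pool.Agent.R666.RT.All

/-!
# Retracts from commuting closure and anticlosure operators

`RTR.PropC` is property (C); `RTR.PropW` is the variant in which the two operators are not required
to commute; `RTR.IsModLat P` (`RTR.IsLat P`): the order of `P` is that of a modular lattice (of a
lattice).
-/

set_option autoImplicit false

namespace Pool.Agent.Results.MP_017791_co.ModularLattices

universe u

/-- Property (C) forces a modular lattice; for complete lattices and for posets without infinite
chains it is equivalent to it; chains have it; `ℕ × (ω² + 1)` does not. Without the commutation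
requirement: the property forces a lattice, and is equivalent to it without infinite chains. -/
theorem result :
    (∀ (P : Type u) [PartialOrder P], RTR.PropC P → RTR.IsModLat P) ∧
    (∀ (P : Type u) [CompleteLattice P], RTR.PropC P ↔ IsModularLattice P) ∧
    (∀ (P : Type u) [PartialOrder P], WellFounded (fun a b : P => a < b) →
      WellFounded (fun a b : P => b < a) → (RTR.PropC P ↔ RTR.IsModLat P)) ∧
    (∀ (P : Type u) [LinearOrder P], RTR.PropC P) ∧
    (¬ RTR.PropC (ℕ × WithTop (ℕ ×ₗ ℕ))) ∧
    (∀ (P : Type u) [PartialOrder P], RTR.PropW P → RTR.IsLat P) ∧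
    (∀ (P : Type u) [PartialOrder P], WellFounded (fun a b : P => a < b) →
      WellFounded (fun a b : P => b < a) → (RTR.PropW P ↔ RTR.IsLat P)) ∧
    (¬ RTR.PropW (ℕ × WithTop (ℕ ×ₗ ℕ))) :=
  RTR.answer

end Pool.Agent.Results.MP_017791_co.ModularLattices
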